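import Pool.Agent.H908.WB4

/-!
# Log pairs on quotients of products

Let `(W 1, B 1), ..., (W r, B r)` be arbitrary projective varieties with boundaries (over the complex
numbers), `V = W 1 × ... × W r` with the boundary `B`, the union of the preimages of the `B i`, and let
`G` be a finite group of birational automorphisms of `V` which permutes the factors and preserves the
boundary. Let `(X, D)` be a projective manifold with a divisor with normal crossings which is birational
to the quotient of `(V, B)` by `G`: a divisor over `X` lies over `D` if and only if it lies under a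
divisor over `V` which lies over `B`.

Let `w` be a prime divisor over `V` which does not lie over `B`, let `e` be its ramification index over
`V / G`, and let `g` in `G` generate the inertia group of `w` (`g` fixes `w` pointwise and has order
`e`). Let `c i` be the ramification index of `w` over the factor `W i` (`0` if `w` dominates `W i`).
Then `g` is junior at `w` if it moves no factor of dimension at least two and

  `∑ c i / e + ∑ d (l - 1) / 2 < 1`,

where the second sum is over the cycles of the permutation of the factors, of length `l`, on factors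
of dimension `d`. Elements which fix only divisors of the boundary are not junior.

1. Let `H` be a subgroup of `G` which contains the junior elements, and let `(Y, E)` be the pair for the
   quotient by `H`. A rational pluricanonical form on `X` has at most logarithmic poles along `D` and no
   other poles if and only if its pull-back to `Y` has this property for `E`; `κ(K_X + D) = κ(K_Y + E)`
   and `ν(K_X + D) = ν(K_Y + E)`; `K_X + D` is pseudo-effective if and only if `K_Y + E` is; and the
   conjecture (if `K + D` is pseudo-effective then `κ = ν ≥ 0`) holds for `(X, D)` if and only if it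
   holds for `(Y, E)`.

2. If `G` does not contain junior elements (other than `1`), then `K_X + D` is pseudo-effective if and
   only if all `K + B i` (on log resolutions of the `W i`) are; `κ(K_X + D) = ∑ κ(K + B i)`; and
   `κ(K_X + D) = ν(K_X + D) ≥ 0` if and only if `κ(K + B i) = ν(K + B i) ≥ 0` for all `i`. So if the
   conjecture holds for all `(W i, B i)`, then it holds for `(X, D)`. For example `X ∖ D` may be a
   resolution of the symmetric product of a quasi-projective variety of dimension at least two.

Proof. By a theorem of Künneth with boundary, the sections of `m (K + B) + j A` on the product are,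
up to a fixed denominator to the power `j`, sums of products of such sections on the factors. Their
orders along the divisors `w` outside the boundary are estimated as in the theorem of Reid and Tai. So
the trace of a fixed function times a section on `Y` is a section of `m (K + D) + j A'` on `X`. For the
numerical dimension of `(W i, B i)` one uses that the other factors have at least `c m ^ κ` sections of
`m (K + B j) + A` for all `m`.
-/

set_option autoImplicit false
set_option linter.overlappingInstances false

open FF IntermediateField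
open Pool.Agent.W619.PQ (IsDivisorial Inert IsPluriForm RegularAt)
open Pool.Agent.W619.PL (IsA1Uniruled LogKodairaNeg LogRegularAt)
open Pool.Agent.W619.TW (IsPsef NumLe NumNeg)
open Pool.Agent.W619.Y (KodTrB)
open Pool.Agent.K1H6.PQ (IsPermuted age)

namespace Pool.Agent.Results.MP_c1e25c_ag.LogJuniorSubgroups

section

variable {L : Type} [Field L] [Algebra ℂ L] {r : ℕ}

/-- The boundary of the product of the pairs `(W i, B i)`: the restriction of the place `w` of `L` to
some `M i` is a positive multiple of a place in `B i`. -/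
def Boundary (M : Fin r → IntermediateField ℂ L) (B : ∀ i, Set (Place ℂ (M i)))
    (w : Place ℂ L) : Prop :=
  ∃ i, ∃ p ∈ B i, ∃ e : ℕ, 0 < e ∧ ∀ z : M i, w.ord (z : L) = e * p.ord z

/-- The boundary of the quotient: the places `v` of the field of invariants which lie under a place
of the boundary of the product. -/
def QuotientBoundary (M : Fin r → IntermediateField ℂ L) (B : ∀ i, Set (Place ℂ (M i)))
    (G : Subgroup (L ≃ₐ[ℂ] L)) (v : Place ℂ (fixedField G)) : Prop :=
  ∃ w : Place ℂ L, Boundary M B w ∧
    ∃ e : ℕ, 0 < e ∧ ∀ z : fixedField G, w.ord (z : L) = e * v.ord z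

/-- The group `G` preserves the boundary. -/
def PreservesBoundary (M : Fin r → IntermediateField ℂ L) (B : ∀ i, Set (Place ℂ (M i)))
    (G : Subgroup (L ≃ₐ[ℂ] L)) : Prop :=
  ∀ g ∈ G, ∀ w : Place ℂ L, Boundary M B w → Boundary M B (w.comp g)

/-- The ramification index of the place `w` over the subfield `M`: the smallest positive order along
`w` of a function in `M`, and `0` if there is none. -/
noncomputable def index (w : Place ℂ L) (M : IntermediateField ℂ L) : ℕ :=
  sInf {c : ℕ | 0 < c ∧ ∃ f ∈ M, w.ord f = c}

/-- The sum over the cycles of the permutation `π`, of length `l` on factors of dimension `d`, of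
`d (l - 1) / 2`. (In the sum below every cycle of length `l` is counted `l` times with the factor
`1 / l`.) -/
noncomputable def permutationAge (a : Fin r → ℕ) (π : Equiv.Perm (Fin r)) : ℝ :=
  ∑ i, (1 / (Function.minimalPeriod π i : ℝ)) *
    (a i * ((Function.minimalPeriod π i : ℝ) - 1) / 2)

/-- The subgroup `H` contains the junior elements of `G`: let `w` be a prime divisor over the product,
outside the boundary, and let `g` in `G` but not in `H` generate the inertia group of `w`, that is `g`
fixes `w` pointwise (`Inert`) and its order `e` is the ramification index of `w` over the quotient by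
`G`. Then `g` moves a factor of dimension at least two, or `e ≤ ∑ c i + e * permutationAge`, with the
ramification indices `c i` of `w` over the factors. -/
def ContainsJunior (M : Fin r → IntermediateField ℂ L) (a : Fin r → ℕ)
    (B : ∀ i, Set (Place ℂ (M i)))
    (G : Subgroup (L ≃ₐ[ℂ] L)) (σ : G →* Equiv.Perm (Fin r)) (H : Subgroup (L ≃ₐ[ℂ] L)) : Prop :=
  ∀ g : G, (g : L ≃ₐ[ℂ] L) ∉ H → ∀ w : Place ℂ L, IsDivisorial w (∑ i, a i) →
    ¬ Boundary M B w → Inert w (g : L ≃ₐ[ℂ] L) →
    orderOf (g : L ≃ₐ[ℂ] L) = index w (fixedField G) →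
    (∃ i, σ g i ≠ i ∧ 2 ≤ a i) ∨
      (orderOf (g : L ≃ₐ[ℂ] L) : ℝ) ≤ ∑ i, (index w (M i) : ℝ) +
        orderOf (g : L ≃ₐ[ℂ] L) * permutationAge a (σ g)

/-- It is sufficient that the age (the sum over the cycles of `d (l - 1) / 2`, plus `1 / t` if `g ^ l`
acts on the factors of the cycle with order `t ≥ 2`) of the elements of `G` which are not in `H` is at
least one, if they fix pointwise a divisor outside the boundary and do not move a factor of dimension
at least two. -/
theorem containsJunior_of_age (M : Fin r → IntermediateField ℂ L) (a : Fin r → ℕ)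
    (B : ∀ i, Set (Place ℂ (M i)))
    (G : Subgroup (L ≃ₐ[ℂ] L)) [Finite G] (σ : G →* Equiv.Perm (Fin r)) (h : IsPermuted M a G σ)
    (H : Subgroup (L ≃ₐ[ℂ] L))
    (hage : ∀ g : G, (g : L ≃ₐ[ℂ] L) ∉ H → (∃ w : Place ℂ L, IsDivisorial w (∑ i, a i) ∧
      ¬ Boundary M B w ∧ Inert w (g : L ≃ₐ[ℂ] L)) → (∃ i, σ g i ≠ i ∧ 2 ≤ a i) ∨
      1 ≤ age M a (σ g) (fun _ _ => 0) (g : L ≃ₐ[ℂ] L)) : ContainsJunior M a B G σ H := by
  intro g hg w hw hwB hI _
  rcases hage g hg ⟨w, hw, hwB, hI⟩ with h1 | h1
  · exact Or.inl h1
  · exact Or.inr (Pool.Agent.H908.SE.index_of_age h g hI h1)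

/-- The inclusion of the fields of functions of the quotients by `G` and by the subgroup `H`. -/
noncomputable def incl {G H : Subgroup (L ≃ₐ[ℂ] L)} (hHG : H ≤ G) : fixedField G →ₐ[ℂ] fixedField H :=
  inclusion (Pool.Agent.H908.SE.fixed_mono hHG)

/-- `ω'` is the pull-back of `ω`: if the vector fields `D'` extend the vector fields `D` then the value
of `ω'` on `D'` is the value of `ω` on `D`. -/
def IsPullback {G H : Subgroup (L ≃ₐ[ℂ] L)} (hHG : H ≤ G) {n : ℕ}
    (ω : (Fin n → Derivation ℂ (fixedField G) (fixedField G)) → fixedField G)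
    (ω' : (Fin n → Derivation ℂ (fixedField H) (fixedField H)) → fixedField H) : Prop :=
  ∀ (D : Fin n → Derivation ℂ (fixedField G) (fixedField G))
    (D' : Fin n → Derivation ℂ (fixedField H) (fixedField H)),
    (∀ j f, D' j (incl hHG f) = incl hHG (D j f)) → ω' D' = incl hHG (ω D)

end

section

variable (K : Type) [Field K] [Algebra ℂ K]

/-- The form is regular along the divisors outside the boundary, and it has at most logarithmic poles
along the divisors of the boundary. -/
def IsLogForm (n : ℕ) (Bd : Place ℂ K → Prop) (ω : (Fin n → Derivation ℂ K K) → K) : Prop :=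
  (∀ v : Place ℂ K, IsDivisorial v n → ¬ Bd v → RegularAt v n ω) ∧
    ∀ v : Place ℂ K, IsDivisorial v n → Bd v → LogRegularAt v n ω

/-- `κ(K + D) = ν(K + D) ≥ 0`. (`KodTrB ℂ K n Bd b` is `κ ≥ b`: there are `b + 1` sections of some
`m (K + D)` with algebraically independent ratios; `NumLe ℂ K n Bd b` is `ν ≤ b`: for every divisor `A`
there is a constant `C` with `h⁰ (m (K + D) + A) ≤ C m ^ b` for all `m ≥ 1`.) -/
def IsGood (n : ℕ) (Bd : Place ℂ K → Prop) : Prop :=
  ∃ b, KodTrB ℂ K n Bd b ∧ NumLe ℂ K n Bd b

end

/-- **Log pairs on quotients of products.** Let `M i` (`i < r`) be the fields of functions of arbitrary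
projective varieties `W i` of dimensions `a i`, with boundaries: `B i` is the set of the divisors over
`W i` which lie over the boundary. Let `L` be the field of functions of their product. Let the finite
group `G` act on the product, permute the factors, as `σ g` (`IsPermuted`), and preserve the boundary.
Let `(X, D)` be a projective manifold with a divisor with normal crossings which is birational to the
quotient of the product by `G`.

1. Let `H` be a subgroup of `G` which contains the junior elements of `G`, and `(Y, E)` the pair for the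
   quotient by `H`. Then
   * a rational `m`-fold pluricanonical form on `X` is regular outside `D` with logarithmic poles along
     `D` if and only if its pull-back to `Y` is regular outside `E` with logarithmic poles along `E`;
   * `κ(K_X + D) = κ(K_Y + E)`, also for the value `-∞`;
   * `ν(K_X + D) = ν(K_Y + E)`, and `K_X + D` is pseudo-effective if and only if `K_Y + E` is;
   * `κ = ν ≥ 0` holds for `(X, D)` if and only if it holds for `(Y, E)`, and the conjecture (if `K + D`
     is pseudo-effective then `κ = ν ≥ 0`) holds for `(X, D)` if and only if it holds for `(Y, E)`;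
   * if the conjecture (if `κ = -∞` then the complement of the boundary is `A¹`-uniruled) holds for
     `(Y, E)` then it holds for `(X, D)`.
2. Let `G` not contain junior elements. Then `K_X + D` is pseudo-effective if and only if `K + B i` is
   for all `i`; `κ(K_X + D) = ∑ κ(K + B i)`; `κ = ν ≥ 0` holds for `(X, D)` if and only if it holds for
   all `(W i, B i)`; and if the conjecture (if `K + D` is pseudo-effective then `κ = ν ≥ 0`) holds for
   all `(W i, B i)`, then it holds for `(X, D)`. -/
theorem result {L : Type} [Field L] [Algebra ℂ L] {r : ℕ} (M : Fin r → IntermediateField ℂ L)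
    (a : Fin r → ℕ) (B : ∀ i, Set (Place ℂ (M i))) (G : Subgroup (L ≃ₐ[ℂ] L)) [Finite G]
    (σ : G →* Equiv.Perm (Fin r)) (h : IsPermuted M a G σ) (hB : PreservesBoundary M B G) :
    (∀ (H : Subgroup (L ≃ₐ[ℂ] L)) (hHG : H ≤ G), ContainsJunior M a B G σ H →
      (∀ (m : ℕ) (ω : (Fin (∑ i, a i) → Derivation ℂ (fixedField G) (fixedField G)) → fixedField G)
        (ω' : (Fin (∑ i, a i) → Derivation ℂ (fixedField H) (fixedField H)) → fixedField H),
        IsPluriForm ℂ (fixedField G) (∑ i, a i) m ω → IsPluriForm ℂ (fixedField H) (∑ i, a i) m ω' →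
        IsPullback hHG ω ω' →
        (IsLogForm (fixedField G) (∑ i, a i) (QuotientBoundary M B G) ω ↔
          IsLogForm (fixedField H) (∑ i, a i) (QuotientBoundary M B H) ω')) ∧
      ((∀ b, KodTrB ℂ (fixedField G) (∑ i, a i) (QuotientBoundary M B G) b ↔
          KodTrB ℂ (fixedField H) (∑ i, a i) (QuotientBoundary M B H) b) ∧
        (LogKodairaNeg ℂ (fixedField G) (∑ i, a i) (QuotientBoundary M B G) ↔
          LogKodairaNeg ℂ (fixedField H) (∑ i, a i) (QuotientBoundary M B H))) ∧
      ((∀ b, NumLe ℂ (fixedField G) (∑ i, a i) (QuotientBoundary M B G) b ↔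
          NumLe ℂ (fixedField H) (∑ i, a i) (QuotientBoundary M B H) b) ∧
        (NumNeg ℂ (fixedField G) (∑ i, a i) (QuotientBoundary M B G) ↔
          NumNeg ℂ (fixedField H) (∑ i, a i) (QuotientBoundary M B H)) ∧
        (IsPsef ℂ (fixedField G) (∑ i, a i) (QuotientBoundary M B G) ↔
          IsPsef ℂ (fixedField H) (∑ i, a i) (QuotientBoundary M B H))) ∧
      ((IsGood (fixedField G) (∑ i, a i) (QuotientBoundary M B G) ↔
          IsGood (fixedField H) (∑ i, a i) (QuotientBoundary M B H)) ∧
        ((IsPsef ℂ (fixedField G) (∑ i, a i) (QuotientBoundary M B G) →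
            IsGood (fixedField G) (∑ i, a i) (QuotientBoundary M B G)) ↔
          (IsPsef ℂ (fixedField H) (∑ i, a i) (QuotientBoundary M B H) →
            IsGood (fixedField H) (∑ i, a i) (QuotientBoundary M B H)))) ∧
      ((LogKodairaNeg ℂ (fixedField H) (∑ i, a i) (QuotientBoundary M B H) →
          IsA1Uniruled ℂ (fixedField H) (∑ i, a i) (QuotientBoundary M B H)) →
        LogKodairaNeg ℂ (fixedField G) (∑ i, a i) (QuotientBoundary M B G) →
        IsA1Uniruled ℂ (fixedField G) (∑ i, a i) (QuotientBoundary M B G))) ∧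
    (ContainsJunior M a B G σ ⊥ →
      (IsPsef ℂ (fixedField G) (∑ i, a i) (QuotientBoundary M B G) ↔
        ∀ i, IsPsef ℂ (M i) (a i) (fun p => p ∈ B i)) ∧
      (∀ b, KodTrB ℂ (fixedField G) (∑ i, a i) (QuotientBoundary M B G) b ↔
        ∃ α : Fin r → ℕ, (∀ i, KodTrB ℂ (M i) (a i) (fun p => p ∈ B i) (α i)) ∧ b ≤ ∑ i, α i) ∧
      (IsGood (fixedField G) (∑ i, a i) (QuotientBoundary M B G) ↔
        ∀ i, IsGood (M i) (a i) (fun p => p ∈ B i)) ∧
      ((∀ i, IsPsef ℂ (M i) (a i) (fun p => p ∈ B i) → IsGood (M i) (a i) (fun p => p ∈ B i)) →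
        IsPsef ℂ (fixedField G) (∑ i, a i) (QuotientBoundary M B G) →
        IsGood (fixedField G) (∑ i, a i) (QuotientBoundary M B G))) := by
  have hbd : ∀ w, Boundary M B w ↔ Pool.Agent.H908.WA.Bdr M (fun i p => p ∈ B i) w := by
    intro w
    constructor
    · rintro ⟨i, p, hp, e, he, h1⟩
      exact ⟨i, p, e, ⟨he, h1⟩, hp⟩
    · rintro ⟨i, p, e, ⟨he, h1⟩, hp⟩
      exact ⟨i, p, hp, e, he, h1⟩
  have hqb : ∀ G' : Subgroup (L ≃ₐ[ℂ] L), QuotientBoundary M B G' =
      Pool.Agent.H908.WA.QB M (fun i p => p ∈ B i) G' := by
    intro G'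
    funext v
    apply propext
    constructor
    · rintro ⟨w, h1, e, he, h2⟩
      exact ⟨w, e, ⟨he, h2⟩, (hbd w).1 h1⟩
    · rintro ⟨w, e, ⟨he, h2⟩, h1⟩
      exact ⟨w, (hbd w).2 h1, e, he, h2⟩
  have hinv : ∀ g ∈ G, ∀ w : Place ℂ L, Pool.Agent.H908.WA.Bdr M (fun i p => p ∈ B i) w →
      Pool.Agent.H908.WA.Bdr M (fun i p => p ∈ B i) (w.comp g) := fun g hg w h1 =>
    (hbd _).1 (hB g hg w ((hbd w).2 h1))
  have hS : ∀ H : Subgroup (L ≃ₐ[ℂ] L), ContainsJunior M a B G σ H →
      Pool.Agent.H908.WA.SeniorB M a (fun i p => p ∈ B i) G σ H := by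
    intro H hH g hg w hw hwB hI hord
    rcases hH g hg w hw (fun h0 => hwB ((hbd w).1 h0)) hI hord with ⟨i, h2, h3⟩ | h1
    · have h4 := Pool.Agent.K1H6.PQ.permAge_ge a (σ g) (h.dim g) h2 h3
      have h5 : (0 : ℝ) ≤ ∑ i, (Pool.Agent.H908.SE.idx w (M i) : ℝ) :=
        Finset.sum_nonneg fun i _ => Nat.cast_nonneg _
      have h6 := mul_le_mul_of_nonneg_left h4 (Nat.cast_nonneg (α := ℝ) (orderOf (g : L ≃ₐ[ℂ] L)))
      linarith
    · exact h1
  simp only [hqb]
  refine ⟨fun H hHG hH => ?_, fun hH => ?_⟩
  · obtain ⟨h1, h2, h3, h4⟩ := Pool.Agent.H908.WA.main_iffB h hHG hinv (hS H hH)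
    have h5 := Pool.Agent.H908.WA.neg_iffB h hHG hinv (hS H hH)
    have h6 : IsGood (fixedField G) (∑ i, a i) (Pool.Agent.H908.WA.QB M (fun i p => p ∈ B i) G) ↔
        IsGood (fixedField H) (∑ i, a i) (Pool.Agent.H908.WA.QB M (fun i p => p ∈ B i) H) := by
      unfold IsGood
      simp only [h1, h4]
    refine ⟨fun m ω ω' hω hω' hp => ?_, ⟨h1, h5⟩, ⟨h4, h3, h2⟩, ⟨h6, by rw [h2, h6]⟩,
      fun h7 h8 => Pool.Agent.H908.WA.a1_down hHG hinv (h7 (h5.1 h8))⟩
    have h7 := Pool.Agent.H908.WA.regular_iffB h hHG hinv (hS H hH) hω hω' hp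
    rw [Pool.Agent.H908.WA.sec_iff_regB, Pool.Agent.H908.WA.sec_iff_regB] at h7
    constructor
    · intro h8
      exact (h7.1 ⟨hω, h8⟩).2
    · intro h8
      exact (h7.2 ⟨hω', h8⟩).2
  · obtain ⟨h1, h2, h3⟩ := Pool.Agent.H908.WA.main_bot h hinv (hS ⊥ hH)
    have h4 : IsGood (fixedField G) (∑ i, a i) (Pool.Agent.H908.WA.QB M (fun i p => p ∈ B i) G) ↔
        ∀ i, IsGood (M i) (a i) (fun p => p ∈ B i) := h3
    exact ⟨h1, h2, h4, fun h5 h6 => h4.2 fun i => h5 i (h1.1 h6 i)⟩

end Pool.Agent.Results.MP_c1e25c_ag.LogJuniorSubgroups
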