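import Pool.Agent.H891.OM.LogSemi

/-!
# Semiample log canonical divisors, and points which are not touched by the minimal model program

MP_c1e25c_ag, Q1. **Pairs with outcome 1** (part (3) of the theorem): let `(X, B)` be a projective pair
of dimension `n`, `X` smooth, `B` reduced with simple normal crossings (so `(X, B)` is log canonical, and
the strata of `B` are log canonical centres), such that for each point `x` of `X` (the maps can depend
on `x`) there are rational maps `φ j : X ⇢ Y j`, `j < r`, to log smooth pairs `(Y j, B j)` with reduced
boundaries, defined and logarithmic at `x`, such that prime divisors of `X` which are not in `B` are not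
mapped into `B j`, and weights `p j` with `n = ∑ p j dim (Y j)`, such that

* for all linear subspaces `U` of the logarithmic tangent space of `(X, B)` at `x`:
  `dim U ≤ ∑ p j dim (dφ j (U))` (the condition for the Brascamp-Lieb inequality);
* `φ j (x)` is not in the stable base locus of `K_{Y j} + B j`, e.g. `K_{Y j} + B j` is semiample.

Then `K_X + B` is semiample: `m (K_X + B)` is base point free for some `m ≥ 1`. So `K_X + B` is nef, and
Q1 is true for `(X, B)` with outcome 1 and `X' = X`. For example `(X, B)` can be a log smooth threefold
with maps to three log surfaces `(Y j, B j)` with `K_{Y j} + B j` nef, which are morphisms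
`X ∖ B → Y j ∖ B j` outside of the boundaries and log smooth, such that the logarithmic directions of the
fibres are linearly independent at all points (`p j = 1 / 2`).

More generally let `(V, Δ)` be a log canonical pair of dimension `n` and `x` a point of `V`, possibly
in the boundary or in a log canonical centre. We prove that `x` is not in the stable base locus
`B(K_V + Δ)` (i.e. some `m (K_V + Δ)`, `m ≥ 1`, has a section which generates it at `x`) if there are
maps `φ j : V ⇢ Y j` (`j < r`) to pairs `(Y j, Δ j)`, usually of smaller dimension, with
`φ j (x)` not in `B(K + Δ j)`, whose logarithmic differentials at the point `x` are in a position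
for which the Brascamp-Lieb inequality is true. We allow multivalued maps, i.e. rational maps of a
Galois covering `V'` of `V`, and quotient singularities.

**Meaning for the minimal model program.** A curve `C` through a point `x` which is not in
`B(K_V + Δ)` satisfies `(K_V + Δ) . C ≥ 0`; so all divisorial contractions and flips of `(V, Δ)` are
isomorphisms near `x`, and the same is true for the following steps, because sections of
`m (K_V + Δ)` do not change. Hence, for a log canonical pair `(V, Δ)`:

* if there are such maps for all points `x` of `V`, then `K_V + Δ` is nef (and semiample), and Q1 is true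
  for `(V, Δ)` with outcome 1 and `X' = X`;
* if there are such maps for all points of the union of the log canonical centres, then each
  `(K_V + Δ)`-MMP is an isomorphism near this union: all its steps take place in the klt locus of
  `(V, Δ)`, outcome 2 is impossible, and the restriction of `K_V + Δ` to each log canonical centre
  is semiample (so it is abundant, as one needs for the results of Hashizume-Hu on the minimal model
  program for log canonical pairs).

In the theorem only the first of these consequences, for log smooth pairs with reduced boundary, is
formalized, as the semiampleness of `K_X + B` (part (3)).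

The assumptions:

(A) `L` is the function field of a Galois covering `V' → V` with the group `G`, `g = |G|`;
`Y j ⊆ L` are the function fields of the `Y j`, `y j = dim (Y j)`, i.e. there are rational maps
`φ j : V' ⇢ Y j`, `j < r`. The branches of `φ j` are its conjugates `φ q`, `q = (j, σ)`, `σ` in `G`.

(B) `(V', Δ') ⇢ (Y j, Δ j)` are maps of orbifolds (`OrbMap`), where `K_V' + Δ' = π^* (K_V + Δ)`: for all
divisors `w` over `V'` (over a divisor `v` over `V`, with the ramification index `e`) the log discrepancy
`e (1 - δ v)` of `w` is in `[0, 1]`, and at most the log discrepancy `i (1 - δ u)` of the valuation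
`i u` which `w` induces on `ℂ(Y j)`, if it is not trivial. If `V` is normal and `K_V + Δ` `ℚ`-Cartier
and log canonical, one can put `δ v = 1` for the exceptional divisors `v` of `V` without changing the
sections of `m (K_V + Δ)`, and then, if the `(Y j, Δ j)` are log canonical, (B) is a condition for the
prime divisors of `V'` only. For example
((0') below) let `V° ⊆ V`, `Y°j ⊆ Y j` be smooth open subvarieties with reduced boundaries, and `φ j`
multivalued morphisms `V° → Y°j` (morphisms of a finite étale covering of `V°`).

(C) The point. `x'` is a smooth point of `V'` over `x`, and `K_V + Δ` pulls back to `K_V' + Δ'` near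
`x'`, where `Δ'` is a reduced divisor with simple normal crossings at `x'` (or `0`). For example
`(V, Δ)` is log smooth with reduced `Δ` at `x` and `V' = V`, or `V'` is smooth and
`V' ∖ Δ' → V ∖ Δ` is étale near `x'`; also `Δ` can have further components with the coefficients
`1 - 1 / m` over which `V'` is ramified of order `m`, and `(V, Δ)` can be the quotient of
`(V', Δ')` by a finite group. In the theorem (`IsLogPoint`) `R` is a ring of functions which are
regular at `x'`, stable under `G`, with the evaluation `ε : R → ℂ` at `x'`; the `z i` in `R` are
coordinates, `Δ'` is given by the product of the `z i` with `i` in `Bd`, and the vector fields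
`H i = ∂ / ∂ z i`, or `z i ∂ / ∂ z i` for `i` in `Bd`, map `R` into itself.

(D) The maps `φ q` are defined at `x'`. In the theorem (`IsLogChart`) `s q` are coordinates of `Y j`, or
of an orbifold chart of `(Y j, Δ j)`, at `φ q (x')`; the boundary (the part of `Δ j` with coefficient
`1`) is given by the product of the `s q l` with `l` in `Cd q`, and it is pulled back to `Δ'`. So the
differentials `θ l = d (s q l)`, or `d (s q l) / s q l` for `l` in `Cd q`, are logarithmic
differentials on `V'`, i.e. their values `w q l i` on the `H i` are regular at `x'`. For the
coordinates `t` of `Y j`: `d (σ t l) = ∑ P l l' θ l'`.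

(E) **The logarithmic Brascamp-Lieb condition at the point** (`BLLog`). There are weights
`p j = c j / d'` with `n = ∑ p j y j` and, for all linear subspaces `U` of the fibre `T` at `x'` of the
logarithmic tangent bundle of `(V', Δ')`,

  `dim U ≤ ∑ p j dim (dφ j (U))`,

where `dim (dφ j (U))` is the average over the branches `q = (j, σ)` of
`dim (dφ q (U)) = dim U - dim (U ∩ T q)`, and `T q = LogTan q` is the kernel of the logarithmic
differential of `φ q`. The point, the maps, and the weights are fixed in the theorem: they can be
different for different `x`. For `U = T` the condition says that the `φ q` with `p j > 0` are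
log smooth at `x'`. At a zero-dimensional stratum of `Δ'` (`|Bd| = n`) such a map is given by monomials
(times units), and `dφ q` is the matrix `A q` of the exponents, i.e. of the multiplicities of the boundary
components; the condition is `dim U ≤ ∑ p j dim (A j (U))` for the subspaces `U` of `ℂ^n`.

**Results.**

(0) **A class with (E).** The logarithmic differentials of the coordinates of the charts `s q` are
those of the `z i`, `i ∈ S q`, for subsets `S q` of `{1, ..., n}` with `y j` elements, such that for all
`i` the sum of the `c j` over the `q = (j, σ)` with `i ∈ S q` is `d' g` (fractional coverings;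
Loomis-Whitney, Finner, Shearer). Geometrically: near `x'`, `(V', Δ')` is étale over a product of
log smooth pairs, and the `φ q` are étale over partial products.

(0') **A class with (B).** If `V' → V` is unramified over all divisors `v` which are not in `Z`, and the
divisors over them are mapped to divisors which are not in `ZY j`, for all `j`, then (B) is true for the
reduced boundaries given by `Z` and `ZY j` (open varieties; exceptional divisors of `V` can be put in
`Z`).

(1) **Generation at `x`.** There are `D ≥ 1` and a function `u` with `u (x') ≠ 0` such that for all
boundaries with (B), all `T`, and all sections `η j` of `T D c j (K + Δ j)`, there is a section `ω` of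
`T D d' g ^ 2 (K_V + Δ)` whose pull-back to `V'` has the value `u ^ T ∏ (φ q^* η j) ^ g` at the
logarithmic frame `H`; here `φ q^* η j` is the value of `η j` in the logarithmic chart `s q`, and
the product is over all branches `q`. So `K_V + Δ - ∑ p j φ j^* (K + Δ j)` is generated by a global
section at `x`.

(2) **Stable base loci.** If the points `φ q (x')` are not in the stable base locus of `K + Δ j` for
all `q = (j, σ)`, then `x` is not in the stable base locus of `K_V + Δ`.

(3) **Semiampleness.** Let `X` be a normal projective variety with function field `K`, given by the
homogeneous coordinates `x` of its generic point, and `B` the reduced divisor with components in a set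
`B` of prime divisors. Suppose that for each prime divisor `Q` over `X` there is a point `x'` in the
closure of the centre of `Q`, such that `X` is smooth and `B` has simple normal crossings at `x'`
(`IsSncAt`), with maps as in (2) (`HasLogMaps`; here `V' = V = X`, and the boundaries are `B` and reduced
boundaries `ZY j` such that prime divisors of `X` which are not in `B` are not mapped to divisors in
`ZY j`; here `ZY j` is a set of divisors over `Y j`, and the sections of `m (K + ZY j)` have at most
logarithmic poles along these, and are regular along all other divisors over `Y j`; for a log smooth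
pair `(Y j, B j)` one takes for `ZY j` all divisors over `Y j` with centre in `B j`). Then `K_X + B` is semiample (`LogSemi`): for some `m ≥ 1` there is for each centre `Z` a section
of `m (K_X + B)` which generates it at the generic point of `Z`. (Each closed point of `X` is such a
centre; so the condition is on all closed points, and `(X, B)` is log smooth.) In the theorem `R` is the
ring of a principal affine open neighbourhood of `x'` (`IsPointOf`).

Examples. (a) `(Y j, Δ j)` log Calabi-Yau (`K + Δ j ~_ℚ 0`, e.g. semiabelian varieties with their toric
compactifications, log K3 surfaces), or `K + Δ j` semiample: there is no condition on the image points.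
For `Y j` compactifications of semiabelian varieties the result is known (the logarithmic Gauss map). (b)
Threefolds `V° → Y°1 × Y°2 × Y°3` with log smooth maps to log surfaces with independent
(logarithmic) directions of the fibres, `p j = 1 / 2`. (c) One multivalued map to a log curve, `p = n`:
the `g` logarithmic differentials at `x'` are a semistable configuration in `P^(n - 1)`.

Comparison. `StableBaseLoci` (MP_5ff3c6_ag) treats the points outside of the log canonical centres
(`Bd`, `Cd` empty), which is sufficient for minimal varieties; in the minimal model program for
log canonical pairs the log canonical centres are the main problem. There the ordinary differentials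
of the maps are not in a good position (e.g. monomial maps), and the estimates for the sections must be
those for log canonical maps (`OrbifoldMaps`, MP_bc213e_ag: there only at the generic point of `V`,
without control of base loci).

Proof. There are constant matrices `X` such that the linear map of the sum of the
`Ω(log) (φ q (x')) ⊗ E_j` to `T^* ⊗ E`, `dim E_j = D c j`, `dim E = D d' g`, is an isomorphism for all
`σ` in `G` simultaneously. The norm from `L` to `K` of the product of the determinant and the `η j` is
the section `ω`; it is a section of `T D d' g ^ 2 (K_V + Δ)` by the estimates for orbifold maps, and its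
value at `x'` is computed in the logarithmic charts. For (3), the boundary of `X` is `B` together with
the exceptional divisors over `X`; the section generates `m (K_X + B)` in a neighbourhood `b ≠ 0` of the
point, and the ideals in the coordinate rings of the charts generated by such functions `b` are
finitely generated, and not contained in the ideal of any centre.

Conventions. `Place ℂ K`: discrete valuations of `K`, trivial on `ℂ`; `IsDivisorial`: given by a divisor
over `V`; `LiesOn w v e`: `w` lies over `v` with the ramification index `e`. `PairSec k M n δ {1} m 0 ω`:
the rational `m`-canonical form `ω` (a function of the frame) is a section of `m (K + Δ)`, `Δ` the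
divisor with the multiplicities `δ v` at the prime divisors over the variety with function field `M`.
`IsDualFrame t F`: coordinates `t` (a transcendence basis) and the dual vector fields `F`.
`NonzeroAt R ε a`: `a` is in `R` and `a (x') ≠ 0`. `pullVal H y₀ E m ω`: the value of the pull-back of
`ω` to `V'` on the frame `H`, computed with coordinates `y₀` of `V` and the dual frame `E`.
`GeneratedBy`: (1). `pullProd`: the product over all `q` in (1). `FreeAt`: `x` is not in the stable
base locus of `K_V + Δ` (for some `m ≥ 1` there is a section `ω` of `m (K_V + Δ)` with
`NonzeroAt R ε (pullVal H y₀ E m ω)`). `FreeIm`: for some `m ≥ 1` there is a section `η` of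
`m (K + Δ j)` whose values `det (P q) ^ m σ (η (F))` in the charts `s q` are not zero at `x'`, for all
`q = (j, σ)`; if no `φ q (x')` is in the stable base locus of `K + Δ j` this is true for a general
section `η`, `m` sufficiently divisible. `NormalModel x`, `IsPrimeDivisor x P`, `Through x P Q`,
`OrdGe`, `OrdEq`, `chart x j`, `Centred x j Q`, `Divisorial n Q` (library): normal projective varieties by
homogeneous coordinates of the generic point, their prime divisors, prime divisors through the centre of
`Q`, order of forms along `P`, coordinate ring of the chart `x j ≠ 0`, centre of `Q` in this chart, prime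
divisors over `X`. (In the doc comments of these definitions `H` is the frame of
ordinary vector fields and `K_V'` is written for `K_V' + Δ'`; here it is the logarithmic frame.)
-/

set_option autoImplicit false

open FF Pool.Agent.W602.GT Pool.Agent.W619.PQ Pool.Agent.W619.TW Pool.Agent.Y172 Pool.Agent.Y174
  Pool.Agent.H891.OM

namespace Pool.Agent.Results.MP_c1e25c_ag.LogStableBaseLoci

/-- **Semiampleness of `K_X + B`, and stable base loci at points of the boundary.** Let `K` be the
function field of varieties of dimension `n`.

(3) Let `X` be a normal projective variety with function field `K` and generic point `x` (in homogeneous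
coordinates), and `B` a reduced divisor on `X`. If for each prime divisor `Q` over `X` there is a point in
the closure of the centre of `Q`, where `(X, B)` is smooth with simple normal crossings, with
maps to pairs `(Y j, ZY j)` such that the logarithmic Brascamp-Lieb condition at the point is satisfied
and the image of the point is not in the stable base locus of the log canonical divisor of
`(Y j, ZY j)` (`HasLogMaps`; `ZY j` is a set of divisors over `Y j`, the sections are regular along
all other divisors over `Y j`), then `K_X + B` is semiample (`LogSemi`).

Let `V` be a projective variety of dimension `n`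
with function field `K`, `L` the function field of a Galois covering `V' → V` with the group `G`,
`g = |G|`, let `Y j ⊆ L` be function fields of varieties of dimension `y j`, `x'` a point of `V'` with
coordinates `z`, `Δ'` given by the `z i` with `i` in `Bd`, and the logarithmic frame `H`
(`IsLogPoint`), and `s q` logarithmic charts of the `Y j` at the images of `x'` under all the conjugates
`q = (j, σ)` of the maps `V' ⇢ Y j` (`IsLogChart`). Let `c j / d'` be weights.

(0) If the logarithmic differentials of the chart `s q` are those of the coordinates `z i`, `i ∈ S q`,
and for all `i` the sum of the `c j` over the `q = (j, σ)` with `i ∈ S q` is `d' g` (`IsLogCoord`),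
then the conditions on the weights in (1) and (2) are satisfied.

(0') If the covering is unramified over all divisors `v` which are not in `Z`, and maps the divisors
over them to divisors which are not in `ZY j` (for all `j`), then the maps are maps of orbifolds
(`OrbMap`) for the reduced boundaries given by `Z` and `ZY j`.

Assume that `∑ c j y j = n d'`, and that the logarithmic Brascamp-Lieb condition is satisfied at the
point (`BLLog`).

(1) There are a `D ≥ 1` and a function `u` with `u (x') ≠ 0` such that for all divisors `Δ`, `Δ j` for
which the maps are maps of orbifolds (`OrbMap`), all `T` and all sections `η j` of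
`T D c j (K_{Y j} + Δ j)`, there is a section `ω` of `T D d' g ^ 2 (K_V + Δ)` whose pull-back to `V'` has
the value `u ^ T ∏ (φ q^* η j) ^ g` at the logarithmic frame `H` (`GeneratedBy`), where `φ q^* η j` is
the value `det (P q) ^ (T D c j) σ (η j (F j))` of `η j` in the chart `s q`.

(2) If the maps are maps of orbifolds, and the images of `x'` are not in the stable base loci of the
`K_{Y j} + Δ j` (`FreeIm`), then the image of `x'` is not in the stable base locus of `K_V + Δ`
(`FreeAt`). -/
theorem result {K : Type} [Field K] [Algebra ℂ K] [Algebra.EssFiniteType ℂ K] {n : ℕ}
    (hn : Algebra.trdeg ℂ K = n) :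
    (∀ (N : ℕ) (x : Fin (N + 1) → K) (B : Set (Place ℂ K)), NormalModel x →
      (∀ Q : Place ℂ K, Divisorial n Q → HasLogMaps x n B Q) → LogSemi x n B) ∧
    ∀ (L : IntermediateField K (AlgebraicClosure K)) [FiniteDimensional K L] [IsGalois K L]
    {r : ℕ} (Y : Fin r → IntermediateField ℂ L) [∀ j, Algebra.EssFiniteType ℂ (Y j)]
    (y : Fin r → ℕ) (_ : ∀ j, Algebra.trdeg ℂ (Y j) = y j) (R : Subalgebra ℂ L) (ε : R →ₐ[ℂ] ℂ)
    (z : Fin n → L) (Bd : Finset (Fin n)) (H : Fin n → Derivation ℂ L L)
    (_ : IsLogPoint R z Bd H) (t : ∀ j, Fin (y j) → Y j)
    (F : ∀ j, Fin (y j) → Derivation ℂ (Y j) (Y j)) (_ : ∀ j, IsDualFrame (t j) (F j))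
    (s : ∀ q : Fin r × (L ≃ₐ[K] L), Fin (y q.1) → L)
    (Cd : ∀ q : Fin r × (L ≃ₐ[K] L), Set (Fin (y q.1)))
    (w : ∀ q : Fin r × (L ≃ₐ[K] L), Fin (y q.1) → Fin n → L)
    (P : ∀ q : Fin r × (L ≃ₐ[K] L), Matrix (Fin (y q.1)) (Fin (y q.1)) L)
    (_ : IsLogChart R H t s Cd w P) (c : Fin r → ℕ) (d' : ℕ) (_ : 1 ≤ d'),
    (∀ S, IsLogCoord w S c d' → ∑ j, c j * y j = n * d' ∧ BLLog R ε w c d') ∧
    (∀ (Z : Set (Place ℂ K)) (ZY : ∀ j, Set (Place ℂ (Y j))),
      (∀ (w : Place ℂ L) (v : Place ℂ K) (e : ℕ), IsDivisorial w n → LiesOn w v e → v ∉ Z →
        e = 1 ∧ ∀ (j : Fin r) (u : Place ℂ (Y j)) (i : ℕ), LiesOn w u i → u ∉ ZY j) →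
      OrbMap n L (Z.indicator 1) Y fun j => (ZY j).indicator 1) ∧
    (∑ j, c j * y j = n * d' → BLLog R ε w c d' →
      (∃ D : ℕ, 0 < D ∧ ∃ u : L, NonzeroAt R ε u ∧
        ∀ (δ : Place ℂ K → ℝ) (δY : ∀ j, Place ℂ (Y j) → ℝ), OrbMap n L δ Y δY →
          GeneratedBy H Y P F δ δY c d' D u) ∧
      ∀ (δ : Place ℂ K → ℝ) (δY : ∀ j, Place ℂ (Y j) → ℝ), OrbMap n L δ Y δY →
        (∀ j, FreeIm R ε (fun σ => P (j, σ)) (F j) (δY j)) → FreeAt R ε H δ) := by
  classical
  refine ⟨fun N x B hx h => log_semi_of_maps inferInstance hx hn h, ?_⟩
  intro L _ _ r Y _ y hy R ε z Bd H _ t F hF s Cd w P hch c d' hd'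
  refine ⟨fun S hS => log_shearer hS.1 hS.2.1 fun i => ?_, fun Z ZY hZ w v e hw hov => ?_,
    fun hcy hBL => ⟨?_, ?_⟩⟩
  · rw [Finset.sum_filter, ← hS.2.2 i]
  · by_cases hv : v ∈ Z
    · rw [Set.indicator_of_mem hv, Pi.one_apply, sub_self, mul_zero]
      refine ⟨le_refl _, zero_le_one, fun j u i _ => ?_⟩
      refine mul_nonneg (Nat.cast_nonneg i) (sub_nonneg.2 ?_)
      exact Set.indicator_apply_le' (fun _ => le_refl _) fun _ => zero_le_one
    · obtain ⟨he, hu⟩ := hZ w v e hw hov hv
      rw [Set.indicator_of_notMem hv, he, Nat.cast_one, sub_zero, mul_one]
      refine ⟨zero_le_one, le_refl _, fun j u i hui => ?_⟩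
      show (1 : ℝ) ≤ i * (1 - (ZY j).indicator 1 u)
      rw [Set.indicator_of_notMem (hu j u i hui), sub_zero, mul_one]
      exact_mod_cast hui.1
  · obtain ⟨D, hD, u, hu, h⟩ := log_sec inferInstance hn hy (fun j => (hF j).1) hch
      (fun j => (hF j).2) hd' hcy hBL
    refine ⟨D, hD, u, hu, fun δ δY horb T η hη => ?_⟩
    obtain ⟨ω, hω, hωE⟩ := h δ δY (orb_loc horb d') T η hη
    refine ⟨ω, hω, fun y₀ E hE => ?_⟩
    rw [hωE y₀ E hE.1 hE.2]
    unfold pullProd
    congr 2
  · intro δ δY horb hfree
    exact log_free inferInstance hn hy (fun j => (hF j).1) hch (fun j => (hF j).2) hd' hcy
      hBL (orb_loc horb d') hfree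

end Pool.Agent.Results.MP_c1e25c_ag.LogStableBaseLoci
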